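import Mathlib
import Pool.Agent.Helper99.XYS.RecB

/-!
The pattern `x, y, x+y, x(y+1)` (and `x(y+1)^k`, `k ≤ K`) for all finite colourings that are
multiply recurrent under dilations, in particular for all colourings with `c(qn) = c(n)`, and for
all colourings in which the colour of `n` depends only on `n mod b` and on the class of `n`
modulo `m`-th powers.
-/

set_option autoImplicit false

namespace Pool.Agent.Results.MP_3c6abb_co.RecurrentColourings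

open Pool.Agent.Helper99.XYS

theorem result :
    -- (1) colourings multiply recurrent under dilations
    (∀ (r K D : ℕ) (c : ℕ → Fin r), 1 ≤ D →
      (∀ N : ℕ, ∃ s : ℕ, 1 < s ∧ s ≡ 1 [MOD D] ∧
        ∀ n, 0 < n → n ≤ N → D ∣ n → ∀ k, 1 ≤ k → k ≤ K + 1 → c (s ^ k * n) = c n) →
      ∀ N : ℕ, ∃ x y z : ℕ, N ≤ x ∧ N ≤ y ∧ 0 < x ∧ 0 < y ∧ D ∣ x ∧ D ∣ y ∧
        x = z * (y + 1) ∧ c z = c y ∧ c x = c y ∧ c (x + y) = c y ∧ ∀ k ≤ K, c (x * (y + 1) ^ k) = c y) ∧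
    -- (2) colourings invariant under one multiplication
    (∀ (r K q D : ℕ) (c : ℕ → Fin r), 2 ≤ q → 1 ≤ D → Nat.Coprime q D →
      (∀ n, 0 < n → D ∣ n → c (q * n) = c n) →
      ∀ N : ℕ, ∃ x y z : ℕ, N ≤ x ∧ N ≤ y ∧ 0 < x ∧ 0 < y ∧ D ∣ x ∧ D ∣ y ∧
        x = z * (y + 1) ∧ c z = c y ∧ c x = c y ∧ c (x + y) = c y ∧ ∀ k ≤ K, c (x * (y + 1) ^ k) = c y) ∧
    -- (3) the colour depends only on the class modulo `b` and the class modulo `m`-th powers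
    (∀ (r K m b D : ℕ) (c : ℕ → Fin r), 1 ≤ m → 1 ≤ b → 1 ≤ D →
      (∀ n n' s t, 0 < n → 0 < n' → 0 < s → 0 < t → n ≡ n' [MOD b] →
        n * s ^ m = n' * t ^ m → c n = c n') →
      ∀ N : ℕ, ∃ x y z : ℕ, N ≤ x ∧ N ≤ y ∧ 0 < x ∧ 0 < y ∧ D ∣ x ∧ D ∣ y ∧
        x = z * (y + 1) ∧ c z = c y ∧ c x = c y ∧ c (x + y) = c y ∧ ∀ k ≤ K, c (x * (y + 1) ^ k) = c y) := by
  refine ⟨?_, ?_, ?_⟩
  · intro r K D c hD h N
    obtain ⟨x, y, z, h1, h2, h3, h4, h5, h6, hz, hcz, h7, h8⟩ := rec_core r K D c hD h N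
    exact ⟨x, y, z, h1, h2, h3, h4, h5, h6, hz, hcz, by simpa using h8 0 (Nat.zero_le _), h7, h8⟩
  · intro r K q D c hq hD hqD h N
    obtain ⟨x, y, z, h1, h2, h3, h4, h5, h6, hz, hcz, h7, h8⟩ := rec_q r K q D c hq hD hqD h N
    exact ⟨x, y, z, h1, h2, h3, h4, h5, h6, hz, hcz, by simpa using h8 0 (Nat.zero_le _), h7, h8⟩
  · intro r K m b D c hm hb hD h N
    obtain ⟨x, y, z, h1, h2, h3, h4, h5, h6, hz, hcz, h7, h8⟩ := rec_class r m b c hm hb h K D N hD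
    exact ⟨x, y, z, h1, h2, h3, h4, h5, h6, hz, hcz, by simpa using h8 0 (Nat.zero_le _), h7, h8⟩

end Pool.Agent.Results.MP_3c6abb_co.RecurrentColourings
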