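import Mathlib
import Pool.Agent.Helper86.MS.PS

/-!
# A Moreira type theorem for the shifted product `x (y + 1)`

For every finite colouring of the positive integers and all `k`, `s` there are `x, y₁, …, y_s > 0`
such that all the numbers `P_a + l (∏_{a < t ≤ b} (y_t + 1) - 1)` with `0 ≤ a ≤ b ≤ s`, `0 ≤ l ≤ k`
have one colour, where `P_a = x ∏_{t ≤ a} (y_t + 1)`.  For `s = 1` this says that the pattern
`x, x + y, x + 2 y, …, x + k y, x (y + 1)` is partition regular.
-/

namespace Pool.Agent.Results.MP_3c6abb_co.ShiftedProducts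

open Finset Pool.Agent.Helper86.MS

variable {r : ℕ}

/-- a state of the construction: a piecewise syndetic set of one colour, a finite set of
multipliers, and the last multiplier used. -/
structure St (c : ℕ → Fin r) where
  B : Set ℕ
  ps : PS B
  col : Fin r
  hcol : ∀ z ∈ B, c z = col
  A : Finset ℕ
  w : ℕ

theorem exists_colour (c : ℕ → Fin r) {D : Set ℕ} (hD : PS D) :
    ∃ κ : Fin r, PS {z | z ∈ D ∧ c z = κ} := by
  classical
  have h : PS (⋃ κ ∈ (Finset.univ : Finset (Fin r)), {z | z ∈ D ∧ c z = κ}) := by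
    apply hD.mono
    intro z hz
    simp only [Set.mem_iUnion]
    exact ⟨c z, Finset.mem_univ _, hz, rfl⟩
  obtain ⟨κ, _, hκ⟩ := PS.biUnion _ _ h
  exact ⟨κ, hκ⟩

theorem step (c : ℕ → Fin r) (k : ℕ) (S : St c) : ∃ S' : St c, 2 ≤ S'.w ∧
    (∀ a ∈ S.A, a * S'.w ∈ S'.A) ∧ 1 ∈ S'.A ∧
    ∀ z ∈ S'.B, ∃ u, z = S'.w * u ∧ ∀ a ∈ S.A, ∀ l ≤ k, u + l * a ^ 2 * (S'.w - 1) ∈ S.B := by
  classical
  set F : Finset ℕ := (S.A ×ˢ Finset.range (k + 1)).image (fun p => p.2 * p.1 ^ 2) with hF
  obtain ⟨d, hd, hps⟩ := S.ps.vdW F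
  obtain ⟨κ, hκ⟩ := exists_colour c (hps.dilate (d + 1) (by omega))
  refine ⟨⟨_, hκ, κ, fun z hz => hz.2, insert 1 (S.A.image (fun a => a * (d + 1))), d + 1⟩,
    by simp only; omega, ?_, Finset.mem_insert_self _ _, ?_⟩
  · intro a ha
    exact Finset.mem_insert_of_mem (Finset.mem_image_of_mem _ ha)
  · rintro z ⟨⟨u, ⟨_, hu⟩, rfl⟩, _⟩
    refine ⟨u, rfl, fun a ha l hl => ?_⟩
    simp only [Nat.add_sub_cancel]
    apply hu
    rw [hF, Finset.mem_image]
    exact ⟨(a, l), Finset.mem_product.mpr ⟨ha, Finset.mem_range.mpr (by omega)⟩, rfl⟩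

/-- the product of the multipliers between two indices -/
def W (w : ℕ → ℕ) (i j : ℕ) : ℕ := ∏ t ∈ Finset.Ico i j, w t

theorem W_self (w : ℕ → ℕ) (i : ℕ) : W w i i = 1 := by simp [W]

theorem W_succ (w : ℕ → ℕ) {i j : ℕ} (h : i ≤ j) : W w i (j + 1) = W w i j * w j := by
  rw [W, Finset.prod_Ico_succ_top h, W]

theorem W_mul (w : ℕ → ℕ) {a b e : ℕ} (h1 : a ≤ b) (h2 : b ≤ e) :
    W w a b * W w b e = W w a e := by
  rw [W, W, W, Finset.prod_Ico_consecutive _ h1 h2]

theorem W_pos (w : ℕ → ℕ) (hw : ∀ n, 2 ≤ w n) (i j : ℕ) : 0 < W w i j :=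
  Finset.prod_pos fun t _ => by have := hw t; omega

theorem W_two (w : ℕ → ℕ) (hw : ∀ n, 2 ≤ w n) {i j : ℕ} (h : i < j) : 2 ≤ W w i j := by
  rw [← W_mul w (Nat.le_succ i) h, W_succ w le_rfl, W_self, one_mul]
  have h1 := hw i
  have h2 := W_pos w hw (i + 1) j
  nlinarith

theorem result (r : ℕ) (c : ℕ → Fin r) (k s : ℕ) :
    ∃ (x : ℕ) (y : ℕ → ℕ), 0 < x ∧ (∀ t, 0 < y t) ∧
      ∀ a b, a ≤ b → b ≤ s → ∀ l ≤ k,
        c (x * ∏ t ∈ Finset.range a, (y t + 1) + l * (∏ t ∈ Finset.Ico a b, (y t + 1) - 1))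
          = c x := by
  classical
  -- the sequence of states
  obtain ⟨κ0, hκ0⟩ := exists_colour c PS.univ
  let S0 : St c := ⟨_, hκ0, κ0, fun z hz => hz.2, {1}, 1⟩
  choose next hnext using step c k
  let f : ℕ → St c := fun n => Nat.rec S0 (fun _ S => next S) n
  have hf : ∀ n, f (n + 1) = next (f n) := fun n => rfl
  set w : ℕ → ℕ := fun n => (f (n + 1)).w with hwdef
  have hw2 : ∀ n, 2 ≤ w n := fun n => (hnext (f n)).1
  have hone : ∀ n, 1 ∈ (f n).A := by
    intro n
    cases n with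
    | zero => exact Finset.mem_singleton_self _
    | succ n => exact (hnext (f n)).2.2.1
  have hWA : ∀ j i, i ≤ j → W w i j ∈ (f j).A := by
    intro j
    induction j with
    | zero =>
      intro i hi
      obtain rfl : i = 0 := by omega
      rw [W_self]
      exact hone 0
    | succ j ih =>
      intro i hi
      rcases Nat.lt_or_ge j i with h | h
      · obtain rfl : i = j + 1 := by omega
        rw [W_self]
        exact hone (j + 1)
      · rw [W_succ w h]
        exact (hnext (f j)).2.1 _ (ih i h)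
  have hinv : ∀ j i, i ≤ j → ∀ z ∈ (f j).B, ∃ x, z = W w i j * x ∧
      ∀ l ≤ k, x + l * (W w i j - 1) ∈ (f i).B := by
    intro j
    induction j with
    | zero =>
      intro i hi z hz
      obtain rfl : i = 0 := by omega
      rw [W_self]
      exact ⟨z, by simp, fun l _ => by simpa using hz⟩
    | succ j ih =>
      intro i hi z hz
      rcases Nat.lt_or_ge j i with h | h
      · obtain rfl : i = j + 1 := by omega
        rw [W_self]
        exact ⟨z, by simp, fun l _ => by simpa using hz⟩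
      · obtain ⟨u, hu, hmem⟩ := (hnext (f j)).2.2.2 z hz
        have hmem' := hmem _ (hWA j i h)
        have hzero := hmem' 0 (Nat.zero_le _)
        rw [zero_mul, zero_mul, add_zero] at hzero
        obtain ⟨x, hx, -⟩ := ih i h u hzero
        have hapos : 0 < W w i j := W_pos w hw2 i j
        have hwj := hw2 j
        refine ⟨x, ?_, fun l hl => ?_⟩
        · rw [W_succ w h, hu, hx]
          change w j * _ = _
          ring
        · obtain ⟨xl, hxl, hxl'⟩ := ih i h _ (hmem' l hl)
          have h1 : xl = x + l * W w i j * (w j - 1) := by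
            apply Nat.eq_of_mul_eq_mul_left hapos
            rw [← hxl, hx]
            change _ + l * W w i j ^ 2 * (w j - 1) = _
            ring
          have h2 := hxl' l hl
          have h3 : xl + l * (W w i j - 1) = x + l * (W w i (j + 1) - 1) := by
            rw [h1, W_succ w h]
            obtain ⟨p, hp⟩ : ∃ p, W w i j = p + 1 := ⟨W w i j - 1, by omega⟩
            obtain ⟨q, hq⟩ : ∃ q, w j = q + 1 := ⟨w j - 1, by omega⟩
            rw [hp, hq]
            have h4 : (p + 1) * (q + 1) - 1 = p * q + p + q := by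
              have : (p + 1) * (q + 1) = p * q + p + q + 1 := by ring
              omega
            rw [h4, Nat.add_sub_cancel, Nat.add_sub_cancel]
            ring
          rw [← h3]
          exact h2
  -- infinitely many indices with the same colour
  obtain ⟨κ, hκ⟩ := Finite.exists_infinite_fiber (fun n => (f n).col)
  let T : Set ℕ := (fun n => (f n).col) ⁻¹' {κ}
  have : Infinite T := hκ
  have : DecidablePred (· ∈ T) := Classical.decPred _
  let φ : ℕ ↪o ℕ := Nat.orderEmbeddingOfSet T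
  have hφ : ∀ n, (f (φ n)).col = κ := by
    intro n
    have h : φ n ∈ Set.range φ := ⟨n, rfl⟩
    rw [Nat.orderEmbeddingOfSet_range T] at h
    exact h
  have hmono : ∀ {a b}, a ≤ b → φ a ≤ φ b := fun h => φ.monotone h
  -- the configuration
  obtain ⟨z, hz, hz1⟩ := (f (φ s)).ps.unbounded 1
  obtain ⟨x, hx, hx'⟩ := hinv (φ s) (φ 0) (hmono (Nat.zero_le _)) z hz
  have hxpos : 0 < x := by
    rcases Nat.eq_zero_or_pos x with h | h
    · rw [h, mul_zero] at hx
      omega
    · exact h
  have hprod : ∀ b a, a ≤ b → ∏ t ∈ Finset.Ico a b, (W w (φ t) (φ (t + 1)) - 1 + 1)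
      = W w (φ a) (φ b) := by
    intro b
    induction b with
    | zero =>
      intro a ha
      obtain rfl : a = 0 := by omega
      simp [W_self]
    | succ b ih =>
      intro a ha
      rcases Nat.lt_or_ge b a with h | h
      · obtain rfl : a = b + 1 := by omega
        simp [W_self]
      · rw [Finset.prod_Ico_succ_top h, ih a h]
        have h1 : W w (φ b) (φ (b + 1)) - 1 + 1 = W w (φ b) (φ (b + 1)) := by
          have := W_pos w hw2 (φ b) (φ (b + 1))
          omega
        rw [h1, W_mul w (hmono h) (hmono (Nat.le_succ b))]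
  have hcolour : ∀ a b, a ≤ b → b ≤ s → ∀ l ≤ k,
      c (x * ∏ t ∈ Finset.range a, (W w (φ t) (φ (t + 1)) - 1 + 1)
        + l * (∏ t ∈ Finset.Ico a b, (W w (φ t) (φ (t + 1)) - 1 + 1) - 1)) = κ := by
    intro a b hab hbs l hl
    rw [Finset.range_eq_Ico, hprod a 0 (Nat.zero_le _), hprod b a hab]
    obtain ⟨v, hv, hv'⟩ := hinv (φ s) (φ b) (hmono hbs) z hz
    have hvB := hv' 0 (Nat.zero_le _)
    rw [zero_mul, add_zero] at hvB
    obtain ⟨x', hx1, hx2⟩ := hinv (φ b) (φ a) (hmono hab) v hvB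
    have hx3 : x' = x * W w (φ 0) (φ a) := by
      have hpos : 0 < W w (φ a) (φ b) * W w (φ b) (φ s) :=
        Nat.mul_pos (W_pos w hw2 _ _) (W_pos w hw2 _ _)
      apply Nat.eq_of_mul_eq_mul_left hpos
      have e1 : W w (φ a) (φ b) * W w (φ b) (φ s) * x' = z := by
        rw [hv, hx1]; ring
      have e2 : W w (φ a) (φ b) * W w (φ b) (φ s) * (x * W w (φ 0) (φ a)) = z := by
        rw [hx, ← W_mul w (hmono (Nat.zero_le b)) (hmono hbs),
          ← W_mul w (hmono (Nat.zero_le a)) (hmono hab)]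
        ring
      rw [e1, e2]
    rw [← hx3, (f (φ a)).hcol _ (hx2 l hl)]
    exact hφ a
  refine ⟨x, fun t => W w (φ t) (φ (t + 1)) - 1, hxpos, fun t => ?_, ?_⟩
  · have h2 : 2 ≤ W w (φ t) (φ (t + 1)) := W_two w hw2 (φ.strictMono (Nat.lt_succ_self t))
    simp only
    omega
  · intro a b hab hbs l hl
    have h0 := hcolour 0 0 le_rfl (Nat.zero_le _) 0 (Nat.zero_le _)
    simp only [Finset.range_zero, Finset.prod_empty, mul_one, zero_mul, add_zero] at h0
    rw [h0]
    exact hcolour a b hab hbs l hl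

end Pool.Agent.Results.MP_3c6abb_co.ShiftedProducts
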