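import Mathlib
import Pool.Agent.Helper30.TC.Main

/-!
The pattern `x, y, x+y, x(y+1)` for colourings all but two of whose classes are small
(not piecewise syndetic inside the multiples of some fixed `m`); in particular for every
2-colouring. The element `y` is at least any given `N`, and for this one `y` there are infinitely
many `x`.
-/

namespace Pool.Agent.Results.MP_3c6abb_co.TwoLargeColours

open Pool.Agent.Helper30.TC Pool.Agent.Helper86.MS

theorem result (k : ℕ) (c : ℕ → Fin k) (b₀ b₁ : Fin k) (m : ℕ) (hm : 0 < m)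
    (small : ∀ b : Fin k, b ≠ b₀ → b ≠ b₁ →
      ¬ ∃ t : ℕ, ∀ L : ℕ, ∃ n : ℕ, ∀ j : ℕ, n ≤ j → j < n + L →
        ∃ s ≤ t, m ∣ (j + s) ∧ c (j + s) = b)
    (N D : ℕ) (hD : 0 < D) :
    ∃ y : ℕ, N ≤ y ∧ D ∣ y ∧ (c y = b₀ ∨ c y = b₁) ∧
      ∀ M : ℕ, ∃ x : ℕ, M ≤ x ∧ D ∣ x ∧
        c x = c y ∧ c (x + y) = c y ∧ c (x * (y + 1)) = c y := by
  have hP : ∀ b ∈ Per c (m * D), b = b₀ ∨ b = b₁ := by
    intro b hb
    by_contra h
    have h0 : b ≠ b₀ := fun h' => h (Or.inl h')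
    have h1 : b ≠ b₁ := fun h' => h (Or.inr h')
    apply small b h0 h1
    have h2 : PS (BB c (m * D) b) := hb
    have h3 : PS (BB c m b) := h2.mono (by
      rintro z ⟨hz1, hz2⟩
      exact ⟨Dvd.dvd.trans (Dvd.intro _ rfl) hz1, hz2⟩)
    exact h3
  obtain ⟨y, h1, h2, h3, h4⟩ := main (Nat.mul_pos hm hD) N b₀ b₁ hP
  refine ⟨y, h1, Dvd.dvd.trans (Dvd.intro_left _ rfl) h2, h3, fun M => ?_⟩
  obtain ⟨x, h5, h6, h7⟩ := h4 M
  exact ⟨x, h5, Dvd.dvd.trans (Dvd.intro_left _ rfl) h6, h7⟩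

end Pool.Agent.Results.MP_3c6abb_co.TwoLargeColours
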