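import Mathlib
import Pool.Agent.Helper99.XYS.Main

/-!
For every finite colouring of the naturals and every `q ≥ 2` the pattern `x, y, x+y, x(y+1)`
(and `x(y+1)^k`, `k ≤ K`) is monochromatic after multiplication by a power of `q`, whose exponent
is bounded in terms of the number of colours and `K`.
-/

set_option autoImplicit false

namespace Pool.Agent.Results.MP_3c6abb_co.UpToDilation

open Pool.Agent.Helper99.XYS

theorem result :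
    (∀ r K : ℕ, ∃ A : ℕ, ∀ q : ℕ, 2 ≤ q → ∀ c : ℕ → Fin r,
      ∃ a j l x y : ℕ, a ≤ A ∧ 1 ≤ j ∧ j ≤ A ∧ 1 ≤ l ∧ l ≤ A ∧ 0 < x ∧ 0 < y ∧
        y + 1 = q ^ j ∧ x = q ^ j * (q ^ l - 1) ∧
        c (q ^ a * (q ^ l - 1)) = c (q ^ a * y) ∧
        c (q ^ a * x) = c (q ^ a * y) ∧
        c (q ^ a * (x + y)) = c (q ^ a * y) ∧
        ∀ k ≤ K, c (q ^ a * (x * (y + 1) ^ k)) = c (q ^ a * y)) ∧
    (∀ (r K N D q : ℕ), 2 ≤ q → 1 ≤ D → Nat.Coprime q D → ∀ c : ℕ → Fin r,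
      ∃ a x y z : ℕ, N ≤ x ∧ N ≤ y ∧ 0 < x ∧ 0 < y ∧ D ∣ x ∧ D ∣ y ∧
        x = z * (y + 1) ∧ c (q ^ a * z) = c (q ^ a * y) ∧
        c (q ^ a * x) = c (q ^ a * y) ∧
        c (q ^ a * (x + y)) = c (q ^ a * y) ∧
        ∀ k ≤ K, c (q ^ a * (x * (y + 1) ^ k)) = c (q ^ a * y)) := by
  refine ⟨?_, ?_⟩
  · intro r K
    obtain ⟨A, hA⟩ := dil_xy r K
    refine ⟨A, ?_⟩
    intro q hq c
    obtain ⟨a, j, l, x, y, h1, h2, h3, h4, h5, h6, h7, h8, h9, hz, h10, h11⟩ := hA q hq c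
    exact ⟨a, j, l, x, y, h1, h2, h4, h3, h5, h6, h7, h8, h9, hz,
      by simpa using h11 0 (Nat.zero_le _), h10, h11⟩
  · intro r K N D q hq hD hqD c
    obtain ⟨a, x, y, z, h1, h2, h3, h4, h5, h6, hz, hcz, h7, h8⟩ := dil_large r K N D q hq hD hqD c
    exact ⟨a, x, y, z, h1, h2, h3, h4, h5, h6, hz, hcz, by simpa using h8 0 (Nat.zero_le _), h7, h8⟩

end Pool.Agent.Results.MP_3c6abb_co.UpToDilation
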